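import Pool.Agent.W759.FD.Defs

/-!
# Project FD, part P8b: the process is 1-dependent
-/

set_option autoImplicit false

namespace Pool.Agent.W561.FD

open MeasureTheory ProbabilityTheory Set Filter
open scoped ENNReal Topology
open Pool.Agent.W759.FD

theorem measurable_X : Measurable X := by
  refine measurable_pi_iff.mpr fun a => measurable_pi_iff.mpr fun q => ?_
  exact (measurable_pi_apply q.2).comp (measurable_pi_apply (q.1, a - q.2))

theorem measurable_rs {ι : Type*} {T : Type*} [MeasurableSpace T] (A : Set ι) :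
    Measurable (rs (T := T) A) :=
  measurable_pi_iff.mpr fun j => measurable_pi_apply (j : ι)

/-- the sigma algebra of the letters of the house `k` seen in `C` -/
@[reducible] def Us (C : Set ℤ) (k : K) : MeasurableSpace (ℕ → Bool) :=
  MeasurableSpace.comap (rs (T := Bool) {j : ℕ | k.2 + (j : ℤ) ∈ C}) inferInstance

theorem comap_le (C : Set ℤ) :
    MeasurableSpace.comap (fun ω => rs (T := S0) C (X ω)) inferInstance ≤
      ⨆ k : K, (Us C k).comap (fun ω : K → ℕ → Bool => ω k) := by
  rw [← measurable_iff_comap_le]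
  refine (@measurable_pi_iff _ _ _ (⨆ k : K, (Us C k).comap (fun ω : K → ℕ → Bool => ω k))
    _ _).mpr fun a => (@measurable_pi_iff _ _ _
      (⨆ k : K, (Us C k).comap (fun ω : K → ℕ → Bool => ω k)) _ _).mpr fun q => ?_
  have h1 : Measurable[Us C (q.1, (a : ℤ) - q.2)] (fun h : ℕ → Bool => h q.2) := by
    have hmem : q.2 ∈ {j : ℕ | (q.1, (a : ℤ) - q.2).2 + (j : ℤ) ∈ C} := by
      have : ((q.1, (a : ℤ) - q.2) : (ℕ × ℕ) × ℤ).2 + (q.2 : ℤ) = a := by
        simp
      show ((q.1, (a : ℤ) - q.2) : (ℕ × ℕ) × ℤ).2 + (q.2 : ℤ) ∈ C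
      rw [this]
      exact a.2
    have h2 : Measurable[Us C (q.1, (a : ℤ) - q.2)]
        (rs (T := Bool) {j : ℕ | (q.1, (a : ℤ) - q.2).2 + (j : ℤ) ∈ C}) := comap_measurable _
    exact (measurable_pi_apply (⟨q.2, hmem⟩ :
      {j : ℕ | (q.1, (a : ℤ) - q.2).2 + (j : ℤ) ∈ C})).comp h2
  have h3 : Measurable[(Us C (q.1, (a : ℤ) - q.2)).comap
      (fun ω : K → ℕ → Bool => ω (q.1, (a : ℤ) - q.2))]
      (fun ω : K → ℕ → Bool => ω (q.1, (a : ℤ) - q.2) q.2) :=
    h1.comp (comap_measurable _)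
  exact h3.mono (le_iSup (fun k : K => (Us C k).comap (fun ω : K → ℕ → Bool => ω k))
    (q.1, (a : ℤ) - q.2)) le_rfl

theorem t8b : P8b := by
  intro h6a h6c h7 A B hAB
  have : ∀ k : K, IsProbabilityMeasure (house (k.1.1 + 1)) := fun k => h6a _ (Nat.succ_pos _)
  have hU : ∀ C k, Us C k ≤ (inferInstance : MeasurableSpace (ℕ → Bool)) :=
    fun C k => (measurable_rs _).comap_le
  have hI : ∀ k : K, Indep (Us A k) (Us B k) (house (k.1.1 + 1)) := by
    intro k
    have h := h6c (k.1.1 + 1) (Nat.succ_pos _) {j : ℕ | k.2 + (j : ℤ) ∈ A}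
      {j : ℕ | k.2 + (j : ℤ) ∈ B} (by
        intro i hi j hj
        have := hAB _ hi _ hj
        have e : k.2 + (i : ℤ) - (k.2 + (j : ℤ)) = (i : ℤ) - (j : ℤ) := by ring
        rwa [e] at this)
    exact (IndepFun_iff_Indep _ _ _).mp h
  have hJ := h7 K (ℕ → Bool) inferInstance (fun k => house (k.1.1 + 1)) (Us A) (Us B)
    (hU A) (hU B) hI
  have hK : Indep (MeasurableSpace.comap (fun ω => rs (T := S0) A (X ω)) inferInstance)
      (MeasurableSpace.comap (fun ω => rs (T := S0) B (X ω)) inferInstance) PW :=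
    indep_of_indep_of_le_left (indep_of_indep_of_le_right hJ (comap_le B)) (comap_le A)
  have hL : IndepFun (fun ω => rs (T := S0) A (X ω)) (fun ω => rs (T := S0) B (X ω)) PW :=
    (IndepFun_iff_Indep _ _ _).mpr hK
  rw [indepFun_iff_measure_inter_preimage_eq_mul] at hL ⊢
  intro s t hs ht
  have h := hL s t hs ht
  have ms := measurable_rs (T := S0) A hs
  have mt := measurable_rs (T := S0) B ht
  unfold muX
  rw [Measure.map_apply measurable_X (ms.inter mt), Measure.map_apply measurable_X ms,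
    Measure.map_apply measurable_X mt]
  exact h

end Pool.Agent.W561.FD
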